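import Pool.Agent.Helper144.NR.WO

set_option autoImplicit false

/-!
# Functionals on the bounded sequences with a well-ordered dense set of twists

The bounded sequences are the elements of `ℕ →ᵇ ℝ` (`BoundedContinuousFunction ℕ ℝ`, supremum norm).
The definitions are in `Pool/Agent/Helper144/NR/Sing.lean`, `NR/WO.lean` and `BL/Digits.lean`:
`ee n` is the unit vector, `sg S` the sequence which is `1` on `S` and `-1` elsewhere,
`twist φ y` the functional `z ↦ φ (y * z)`, `sing φ x = φ x - ∑' n, φ (ee n) * x n` the singular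
part of `φ`, `dig r` the set of the places of the digits one in the binary expansion of the real
number `r`, and `NN ψ w i` the set of the `r` in the open unit interval for which
`sing (ψ i) (w * sg (dig r)) ≠ 0`.
-/

namespace Pool.Agent.Results.MP_87323d_lc.WellOrderedTwists

open MeasureTheory BoundedContinuousFunction Pool.Agent.Helper144.BL Pool.Agent.Helper144.NR

/-- Let `φ` be a continuous linear functional on the bounded sequences which is not given by an
absolutely summable sequence. If all twists of `φ` by sequences of signs belong to the norm closure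
of a well-ordered family `ψ` of functionals (for instance of a sequence), then one of some explicit
sets of real numbers or of pairs of real numbers is not Lebesgue measurable. -/
theorem result {ι : Type*} [LinearOrder ι] [WellFoundedLT ι] (φ : (ℕ →ᵇ ℝ) →L[ℝ] ℝ)
    (hφ : ¬ ∃ a : ℕ → ℝ, (Summable fun n => |a n|) ∧ ∀ x : ℕ →ᵇ ℝ, φ x = ∑' n, a n * x n)
    (ψ : ι → ((ℕ →ᵇ ℝ) →L[ℝ] ℝ))
    (hψ : ∀ S : Set ℕ, twist φ (sg S) ∈ closure (Set.range ψ)) :
    (∃ w, sing φ w ≠ 0) ∧ ∀ w, sing φ w ≠ 0 →
      (∃ i, ¬ NullMeasurableSet {r : ℝ | sing (ψ i) (w * sg (dig r)) < 0} volume) ∨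
      (∃ i, ¬ NullMeasurableSet (⋃ j < i, NN ψ w j) volume) ∨
      ¬ NullMeasurableSet
        {p : ℝ × ℝ | ∃ i, p.2 ∈ NN ψ w i ∧ ∀ j < i, p.1 ∉ NN ψ w j} volume :=
  ⟨exists_sing φ hφ, fun w hw => main_wo φ ψ hψ w hw⟩

end Pool.Agent.Results.MP_87323d_lc.WellOrderedTwists
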